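import Pool.Agent.H73.CBE.Stmts

/-!
# Board `cbe`, row HHL
-/

set_option autoImplicit false

open Set Filter Topology

namespace Pool.CBE

/-- the case `‖w‖ ≤ ‖z‖`, for an abstract derivative `D` -/
theorem hhl_key {n : ℕ} {F : Type} [NormedAddCommGroup F] [NormedSpace ℝ F] (D : E n → F)
    {L a R : ℝ} (hL : 0 < L) (ha0 : 0 < a) (ha1 : a < 1)
    (hs : ∀ (t : ℝ) (z : E n), 0 < t → D (t • z) = t • D z) (h0 : D 0 = 0)
    (hb : ∀ z z' : E n, ‖z‖ = 1 → 5 / 8 < ‖z'‖ → ‖z'‖ < 3 / 2 → ‖D z'‖ ≤ L ∧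
      ‖D z - D z'‖ ≤ L * ‖z - z'‖ ^ a) (z w : E n) (hz : ‖z‖ ≤ R) (hwz : ‖w‖ ≤ ‖z‖) :
    ‖D z - D w‖ ≤ 6 * L * (2 * R) ^ (1 - a) * ‖z - w‖ ^ a := by
  have hunit : ∀ v : E n, v ≠ 0 → ‖(‖v‖⁻¹ : ℝ) • v‖ = 1 := by
    intro v hv
    rw [norm_smul, norm_inv, norm_norm, inv_mul_cancel₀ (norm_ne_zero_iff.2 hv)]
  have hlin : ∀ v : E n, ‖D v‖ ≤ L * ‖v‖ := by
    intro v
    by_cases hv : v = 0
    · rw [hv, h0, norm_zero, norm_zero, mul_zero]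
    · have hv0 : 0 < ‖v‖ := norm_pos_iff.2 hv
      have h1 : v = ‖v‖ • ((‖v‖⁻¹ : ℝ) • v) := by
        rw [smul_smul, mul_inv_cancel₀ hv0.ne', one_smul]
      have h2 := (hb ((‖v‖⁻¹ : ℝ) • v) ((‖v‖⁻¹ : ℝ) • v) (hunit v hv)
        (by rw [hunit v hv]; norm_num) (by rw [hunit v hv]; norm_num)).1
      have h3 : D v = ‖v‖ • D ((‖v‖⁻¹ : ℝ) • v) := by
        rw [← hs _ _ hv0, ← h1]
      rw [h3, norm_smul, norm_norm, mul_comm]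
      exact mul_le_mul_of_nonneg_right h2 hv0.le
  by_cases hz0 : z = 0
  · have hw0 : w = 0 := by
      rw [hz0, norm_zero] at hwz
      exact norm_le_zero_iff.1 hwz
    rw [hz0, hw0, sub_self, norm_zero, sub_self, norm_zero, Real.zero_rpow ha0.ne', mul_zero]
  have ht : 0 < ‖z‖ := norm_pos_iff.2 hz0
  have hR : 0 < R := ht.trans_le hz
  obtain ⟨t, htd⟩ : ∃ t, t = ‖z‖ := ⟨_, rfl⟩
  rw [← htd] at ht hz hwz
  by_cases hc : 3 * t / 8 ≤ ‖z - w‖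
  · have hp : 0 < ‖z - w‖ := lt_of_lt_of_le (by positivity) hc
    have h1 : ‖D z - D w‖ ≤ 6 * L * ‖z - w‖ := by
      calc ‖D z - D w‖ ≤ ‖D z‖ + ‖D w‖ := norm_sub_le _ _
        _ ≤ L * ‖z‖ + L * ‖w‖ := add_le_add (hlin z) (hlin w)
        _ ≤ L * t + L * t := by
          rw [← htd]
          exact add_le_add le_rfl (mul_le_mul_of_nonneg_left hwz hL.le)
        _ ≤ 6 * L * ‖z - w‖ := by nlinarith
    have h2 : ‖z - w‖ ≤ 2 * R := by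
      calc ‖z - w‖ ≤ ‖z‖ + ‖w‖ := norm_sub_le _ _
        _ ≤ t + t := by
          rw [← htd]
          exact add_le_add le_rfl hwz
        _ ≤ 2 * R := by linarith
    have h3 : ‖z - w‖ = ‖z - w‖ ^ (1 - a) * ‖z - w‖ ^ a := by
      rw [← Real.rpow_add hp, sub_add_cancel, Real.rpow_one]
    have h4 : ‖z - w‖ ^ (1 - a) ≤ (2 * R) ^ (1 - a) :=
      Real.rpow_le_rpow hp.le h2 (by linarith)
    calc ‖D z - D w‖ ≤ 6 * L * ‖z - w‖ := h1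
      _ = 6 * L * (‖z - w‖ ^ (1 - a) * ‖z - w‖ ^ a) := by rw [← h3]
      _ ≤ 6 * L * ((2 * R) ^ (1 - a) * ‖z - w‖ ^ a) := by
        apply mul_le_mul_of_nonneg_left _ (by positivity)
        exact mul_le_mul_of_nonneg_right h4 (Real.rpow_nonneg hp.le a)
      _ = _ := by ring
  · rw [not_le] at hc
    have hti : 0 < t⁻¹ := inv_pos.2 ht
    have hz1 : ‖(t⁻¹ : ℝ) • z‖ = 1 := by
      rw [htd]
      exact hunit z hz0
    have hzw : ‖(t⁻¹ : ℝ) • z - (t⁻¹ : ℝ) • w‖ = t⁻¹ * ‖z - w‖ := by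
      rw [← smul_sub, norm_smul, Real.norm_of_nonneg hti.le]
    have hw1 : ‖(t⁻¹ : ℝ) • w‖ ≤ 1 := by
      rw [norm_smul, Real.norm_of_nonneg hti.le]
      calc t⁻¹ * ‖w‖ ≤ t⁻¹ * t := mul_le_mul_of_nonneg_left hwz hti.le
        _ = 1 := inv_mul_cancel₀ ht.ne'
    have hsm : t⁻¹ * ‖z - w‖ < 3 / 8 := by
      calc t⁻¹ * ‖z - w‖ < t⁻¹ * (3 * t / 8) := mul_lt_mul_of_pos_left hc hti
        _ = 3 / 8 := by field_simp
    have hw2 : 5 / 8 < ‖(t⁻¹ : ℝ) • w‖ := by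
      have h1 : ‖(t⁻¹ : ℝ) • z‖ ≤ ‖(t⁻¹ : ℝ) • w‖ + ‖(t⁻¹ : ℝ) • z - (t⁻¹ : ℝ) • w‖ := by
        have := norm_add_le ((t⁻¹ : ℝ) • w) ((t⁻¹ : ℝ) • z - (t⁻¹ : ℝ) • w)
        rwa [add_sub_cancel] at this
      rw [hz1, hzw] at h1
      linarith
    have h2 := (hb _ _ hz1 hw2 (by linarith)).2
    rw [hzw] at h2
    have h3 : D z = t • D ((t⁻¹ : ℝ) • z) := by
      rw [← hs _ _ ht, smul_smul, mul_inv_cancel₀ ht.ne', one_smul]
    have h4 : D w = t • D ((t⁻¹ : ℝ) • w) := by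
      rw [← hs _ _ ht, smul_smul, mul_inv_cancel₀ ht.ne', one_smul]
    rw [h3, h4, ← smul_sub, norm_smul, Real.norm_of_nonneg ht.le]
    have h5 : (t⁻¹ * ‖z - w‖) ^ a = (t⁻¹) ^ a * ‖z - w‖ ^ a :=
      Real.mul_rpow hti.le (norm_nonneg _)
    have h6 : t * (t⁻¹) ^ a = t ^ (1 - a) := by
      rw [Real.inv_rpow ht.le, ← Real.rpow_neg ht.le]
      nth_rewrite 1 [← Real.rpow_one t]
      rw [← Real.rpow_add ht]
      congr 1
    have h7 : t ^ (1 - a) ≤ (2 * R) ^ (1 - a) :=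
      Real.rpow_le_rpow ht.le (by linarith) (by linarith)
    have hpw : (0 : ℝ) ≤ ‖z - w‖ ^ a := Real.rpow_nonneg (norm_nonneg _) a
    have hpR : (0 : ℝ) ≤ (2 * R) ^ (1 - a) := Real.rpow_nonneg (by linarith) _
    calc t * ‖D ((t⁻¹ : ℝ) • z) - D ((t⁻¹ : ℝ) • w)‖ ≤ t * (L * (t⁻¹ * ‖z - w‖) ^ a) :=
          mul_le_mul_of_nonneg_left h2 ht.le
      _ = L * (t * (t⁻¹) ^ a) * ‖z - w‖ ^ a := by
        rw [h5]
        ring
      _ = L * t ^ (1 - a) * ‖z - w‖ ^ a := by rw [h6]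
      _ ≤ L * (2 * R) ^ (1 - a) * ‖z - w‖ ^ a := by
        apply mul_le_mul_of_nonneg_right _ hpw
        exact mul_le_mul_of_nonneg_left h7 hL.le
      _ ≤ 6 * L * (2 * R) ^ (1 - a) * ‖z - w‖ ^ a := by
        apply mul_le_mul_of_nonneg_right _ hpw
        apply mul_le_mul_of_nonneg_right _ hpR
        linarith

theorem HHL_thm (h1 : HDAStmt) (h2 : HDBStmt) : HHLStmt := by
  intro n f d η C θ a hyp R
  obtain ⟨-, hs, h0⟩ := h1 n f d η C θ a hyp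
  obtain ⟨L, hL, hb⟩ := h2 n f d η C θ a hyp
  refine ⟨6 * L * (2 * R) ^ (1 - a), fun z w hz hw => ?_⟩
  rcases le_total ‖w‖ ‖z‖ with h | h
  · exact hhl_key (fderiv ℝ (H f d)) hL hyp.ha0 hyp.ha1 hs h0 hb z w hz h
  · rw [norm_sub_rev, norm_sub_rev z w]
    exact hhl_key (fderiv ℝ (H f d)) hL hyp.ha0 hyp.ha1 hs h0 hb w z hw h

end Pool.CBE
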